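import Pool.Agent.J6H90.Height.Cyc

/-!
# `B(2 q ^ b) = 2` for every odd prime `q` and every `b ≥ 1`

Up to sign every divisor of `X ^ (2 q ^ b) - 1` in `ℤ[X]` is `A(X) ∏_{i < b} P_i(X ^ (q ^ i))` with
`A ∈ {1, X - 1, X + 1, X² - 1}` and `P_i ∈ {1, U, V, U V}`, where `U = 1 + X + ⋯ + X ^ (q - 1)` and
`V(X) = U(-X)`, so that `U V = U(X²)`. Each `P_i` has at most one nonzero coefficient, which is
`±1`, in every residue class modulo `q`; hence the largest sum of the absolute values of the
coefficients in a residue class modulo `q ^ k` does not increase with `k`, and it is at most `2`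
for `A`.
-/

namespace Pool.Agent.Results.MP_0523aa_nt.MaxHeightTwo

open Polynomial

/-- The height of an integer polynomial: the largest absolute value of a coefficient. -/
def height (f : ℤ[X]) : ℕ := f.support.sup fun n => (f.coeff n).natAbs

/-- The heights of the divisors of `X ^ n - 1` in `ℤ[X]`. -/
def heights (n : ℕ) : Set ℕ := {h | ∃ f : ℤ[X], f ∣ X ^ n - 1 ∧ height f = h}

/-- `B n` is the largest height of a divisor of `X ^ n - 1` in `ℤ[X]`. -/
noncomputable def B (n : ℕ) : ℕ := sSup (heights n)

/-- **`B(2 q ^ b) = 2`** for every odd prime `q` and every `b ≥ 1`: the largest height of a divisor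
of `X ^ (2 q ^ b) - 1` exists and is `2`. -/
theorem result (q b : ℕ) (hq : q.Prime) (hq2 : q ≠ 2) (hb : 1 ≤ b) :
    IsGreatest (heights (2 * q ^ b)) 2 ∧ B (2 * q ^ b) = 2 := by
  have hodd : Odd q := hq.odd_of_ne_two hq2
  have hfact := Fact.mk hq
  have main : IsGreatest (heights (2 * q ^ b)) 2 := by
    constructor
    · -- the divisor `(X + 1) Φ_q`
      have hdvd : ((X + 1) * cyclotomic q ℤ : ℤ[X]) ∣ X ^ (2 * q ^ b) - 1 := by
        have h1 : (cyclotomic q ℤ : ℤ[X]) ∣ X ^ (q ^ b) - 1 := by
          refine (cyclotomic.dvd_X_pow_sub_one q ℤ).trans ?_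
          obtain ⟨c, hc⟩ := dvd_pow_self q (by omega : b ≠ 0)
          rw [hc]
          simpa [pow_mul] using sub_one_dvd_pow_sub_one (X ^ q : ℤ[X]) c
        have h2 : (X + 1 : ℤ[X]) ∣ X ^ (q ^ b) + 1 := by
          have := (hodd.pow (n := b)).add_dvd_pow_add_pow (X : ℤ[X]) 1
          simpa using this
        have h3 : (X ^ (2 * q ^ b) - 1 : ℤ[X]) = (X ^ (q ^ b) + 1) * (X ^ (q ^ b) - 1) := by ring
        rw [h3]
        exact mul_dvd_mul h2 h1
      refine ⟨(X + 1) * cyclotomic q ℤ, hdvd, ?_⟩
      apply le_antisymm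
      · unfold height
        apply Finset.sup_le
        intro n _
        have := Pool.Agent.J6H90.Height.coeff_le_two hq hodd b _ hdvd n
        rw [Int.abs_eq_natAbs] at this
        exact_mod_cast this
      · unfold height
        have hco : ((X + 1) * cyclotomic q ℤ : ℤ[X]).coeff 1 = 2 := by
          have h3 : 3 ≤ q := by
            have := hq.two_le
            omega
          rw [cyclotomic_prime, add_mul, one_mul, coeff_add, show (1 : ℕ) = 0 + 1 from rfl,
            coeff_X_mul, finsetSum_coeff, finsetSum_coeff]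
          have e1 : ∀ k, k < q → ∑ i ∈ Finset.range q, ((X : ℤ[X]) ^ i).coeff k = 1 := by
            intro k hk
            rw [Finset.sum_eq_single k]
            · simp
            · intro i _ hi; rw [coeff_X_pow, if_neg (Ne.symm hi)]
            · intro hn; exact absurd (Finset.mem_range.2 hk) hn
          rw [e1 0 (by omega), e1 (0 + 1) (by omega)]
          norm_num
        have hmem : 1 ∈ ((X + 1) * cyclotomic q ℤ : ℤ[X]).support := by
          rw [mem_support_iff, hco]; norm_num
        have := Finset.le_sup (f := fun n => (((X + 1) * cyclotomic q ℤ : ℤ[X]).coeff n).natAbs)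
          hmem
        simp only [hco] at this
        exact this
    · rintro h ⟨f, hf, rfl⟩
      unfold height
      apply Finset.sup_le
      intro n _
      have := Pool.Agent.J6H90.Height.coeff_le_two hq hodd b f hf n
      rw [Int.abs_eq_natAbs] at this
      exact_mod_cast this
  exact ⟨main, main.csSup_eq⟩

end Pool.Agent.Results.MP_0523aa_nt.MaxHeightTwo
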